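import Pool.Agent.Q15.UM.U7

/-!
# The unicritical polynomials with a rational preperiodic point: all moments of their number

Let `d ≥ 4` be even. For 100% of the rational numbers `c` of height at most `X` the polynomial
`z ^ d + c` has no preperiodic point in `ℚ` at all, for the trivial reason that the denominator of `c`
is not a `d`-th power. We count the `c` with preperiodic points and determine how many they have:

* the number of rational `c` of height at most `X` such that `z ^ d + c` has a rational preperiodic
  point is of order `X ^ (2 / d)`;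
* all but `O(X ^ ((d + 1) / d ^ 2 + ε))` of these `c` are such that `z ^ d + c` has exactly two rational
  preperiodic points, a fixed point `x` and `-x`;
* all moments of the number of rational preperiodic points over the exceptional `c` are
  `O(X ^ ((d + 1) / d ^ 2 + ε))`; so the average of the `p`-th power of the number of rational
  preperiodic points over the `c` of height at most `X` which have some converges to `2 ^ p`, with a
  power saving, for every `p`.

(As `(d + 1) / d ^ 2 < 2 / d`. The point at infinity is not counted. For odd `d` the map is monotone on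
the real line, so that all preperiodic points are fixed points and there are at most three of them.)

Proof. All preperiodic points have the same denominator `b`, `c` has the denominator `b ^ d`, and the
numerators satisfy `u ^ d ≡ w ^ d` modulo `b ^ (d - 1)`. A `c` with another number of points comes
from such a pair with `u ≠ ± w`. For every prime `p` dividing `b` the quotient `w / u` is one of at
most `d` roots of unity modulo `p` (modulo 4 for `p = 2`). By the lifting the exponent lemma, for two
pairs with the same roots of unity the determinant is divisible by `b ^ (d - 1) / d`; real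
absolute values (`|u|` and `|w|` are very close if `|c|` is large) show that it is zero. So all pairs
in a class are multiples of one coprime pair, which is not small as `b ^ (d - 1)` divides
`u ^ d - w ^ d ≠ 0`.
-/

set_option autoImplicit false

namespace Pool.Agent.Q15.Kept.AllMomentsUnicritical

/-- The rational numbers with a finite forward orbit under `w ↦ w ^ d + c`. -/
def preperiodic (d : ℕ) (c : ℚ) : Set ℚ :=
  {z | (Set.range fun k : ℕ => (fun w : ℚ => w ^ d + c)^[k] z).Finite}

/-- The rational numbers `c` with numerator and denominator at most `X` in absolute value such that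
`z ^ d + c` has a rational preperiodic point. -/
def parameters (d : ℕ) (X : ℝ) : Set ℚ :=
  {c | ((|c.num| : ℤ) : ℝ) ≤ X ∧ (c.den : ℝ) ≤ X ∧ (preperiodic d c).Nonempty}

/-- Those of them for which the number of rational preperiodic points is not two. -/
def exceptional (d : ℕ) (X : ℝ) : Set ℚ :=
  {c | c ∈ parameters d X ∧ (preperiodic d c).ncard ≠ 2}

/-- Let `d ≥ 4` be even, `p ≥ 0` an integer and `ε > 0`. There is `C` such that for every `X ≥ 1`:
the number of rational `c` of height at most `X` such that `z ^ d + c` has a rational preperiodic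
point is between `X ^ (2 / d) / C` and `C X ^ (2 / d)`; the sum of the `p`-th powers of the number of
rational preperiodic points of `z ^ d + c`, over those of them for which this number is not two, is
at most `C X ^ ((d + 1) / d ^ 2 + ε)` (for `p = 0`: the number of these `c`); for all other `c` the
rational preperiodic points are a fixed point `x ≠ 0` and `-x`. -/
theorem result (d : ℕ) (hd : Even d) (hd4 : 4 ≤ d) (p : ℕ) (ε : ℝ) (hε : 0 < ε) :
    (∀ c : ℚ, (preperiodic d c).Finite) ∧ ∃ C : ℝ, ∀ X : ℝ, 1 ≤ X →
      (parameters d X).Finite ∧
      X ^ (2 / (d : ℝ)) ≤ C * ((parameters d X).ncard : ℝ) ∧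
      ((parameters d X).ncard : ℝ) ≤ C * X ^ (2 / (d : ℝ)) ∧
      ∑ᶠ c ∈ exceptional d X, ((preperiodic d c).ncard : ℝ) ^ p ≤
        C * X ^ (((d : ℝ) + 1) / (d : ℝ) ^ 2 + ε) ∧
      ∀ c ∈ parameters d X, c ∉ exceptional d X →
        ∃ x : ℚ, x ≠ 0 ∧ x ^ d + c = x ∧ preperiodic d c = {x, -x} := by
  have hd0 : (0 : ℝ) < d := by
    have : 0 < d := by omega
    exact_mod_cast this
  obtain ⟨K₁, hK₁, h1⟩ := Pool.Agent.Q15.UM.par_upper hd hd4
  obtain ⟨K₂, hK₂, h2⟩ := Pool.Agent.Q15.UM.moments hd hd4 p (ε * d) (by positivity)
  refine ⟨fun c => Pool.Agent.Q15.UM.pre_finite hd hd4 c, max (max K₁ K₂) 64, fun X hX => ?_⟩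
  obtain ⟨h3, h4⟩ := h1 X hX
  obtain ⟨h5, h6⟩ := h2 X hX
  have h7 := Pool.Agent.Q15.UM.par_lower hd hd4 hX
  have e1 : (X ^ (1 / (d : ℝ))) ^ (2 : ℝ) = X ^ (2 / (d : ℝ)) := by
    rw [← Real.rpow_mul (by linarith)]
    congr 1
    ring
  have e2 : (X ^ (1 / (d : ℝ))) ^ (1 + 1 / (d : ℝ) + ε * d) =
      X ^ (((d : ℝ) + 1) / (d : ℝ) ^ 2 + ε) := by
    rw [← Real.rpow_mul (by linarith)]
    congr 1
    field_simp
  rw [e1] at h4 h7
  rw [e2] at h6
  refine ⟨h3, ?_, ?_, ?_, ?_⟩
  · refine h7.trans (mul_le_mul_of_nonneg_right (le_max_right _ _) (Nat.cast_nonneg _))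
  · refine h4.trans (mul_le_mul_of_nonneg_right ((le_max_left _ _).trans (le_max_left _ _)) ?_)
    positivity
  · refine le_trans h6 (mul_le_mul_of_nonneg_right ((le_max_right _ _).trans (le_max_left _ _)) ?_)
    positivity
  · intro c hc hc2
    have h8 : (Pool.Agent.Q15.UM.Pre d c).ncard = 2 := by
      by_contra h
      exact hc2 ⟨hc, h⟩
    exact Pool.Agent.Q15.UM.good_fixed hd hd4 h8

end Pool.Agent.Q15.Kept.AllMomentsUnicritical
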